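import Mathlib

/-!
SM, block AS: the number of small sets, and real inequalities.
-/

set_option autoImplicit false

open Finset

namespace Pool.Agent.Helper1.SM

/-- the number of the sets with fewer than `v` elements -/
theorem count_lt {k v : ℕ} {x : ℝ} (hx0 : 0 < x) (hx1 : x ≤ 1) :
    (((Finset.univ : Finset (Finset (Fin k))).filter fun V => V.card < v).card : ℝ) ≤
      (1 / x) ^ v * (1 + x) ^ k := by
  have h1 : ∑ s : Finset (Fin k), x ^ s.card = (x + 1) ^ k := by
    have h := Fintype.sum_pow_mul_eq_add_pow (Fin k) x (1 : ℝ)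
    simp only [one_pow, mul_one, Fintype.card_fin] at h
    exact h
  have h2 : (((Finset.univ : Finset (Finset (Fin k))).filter fun V => V.card < v).card : ℝ) * x ^ v ≤
      (1 + x) ^ k := by
    rw [add_comm 1 x, ← h1]
    calc (((Finset.univ : Finset (Finset (Fin k))).filter fun V => V.card < v).card : ℝ) * x ^ v
        = ∑ _s ∈ (Finset.univ : Finset (Finset (Fin k))).filter fun V => V.card < v, x ^ v := by
          rw [Finset.sum_const, nsmul_eq_mul]
      _ ≤ ∑ s ∈ (Finset.univ : Finset (Finset (Fin k))).filter fun V => V.card < v, x ^ s.card := by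
          apply Finset.sum_le_sum
          intro s hs
          exact pow_le_pow_of_le_one hx0.le hx1 (Finset.mem_filter.1 hs).2.le
      _ ≤ ∑ s : Finset (Fin k), x ^ s.card :=
          Finset.sum_le_sum_of_subset_of_nonneg (Finset.filter_subset _ _) fun s _ _ => by positivity
  rw [one_div, inv_pow, ← div_eq_inv_mul, le_div_iff₀ (by positivity)]
  exact h2

/-- the lower bound for the probability of a large transversal -/
theorem q_lower {k v : ℕ} {x e₂ N w : ℝ} (hx0 : 0 < x) (hx1 : x ≤ 1) (hN0 : 0 < N)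
    (hN : N ≤ (1 / x) ^ v * (1 + x) ^ k) (hv : (v : ℝ) ≤ x * k + 1) (hw0 : 0 ≤ w)
    (hw : w ≤ e₂ ^ 2 / 8) (hH : x * Real.log (1 / x) + x ≤ e₂ ^ 2 / 8)
    (hk : Real.log 2 + Real.log (1 / x) < e₂ ^ 2 / 8 * k) :
    Real.exp (-(e₂ ^ 2 * k / 2)) < 1 / (2 * N * (1 + w) ^ k) := by
  have hk0 : (0 : ℝ) ≤ k := Nat.cast_nonneg k
  have hl0 : 0 ≤ Real.log (1 / x) := Real.log_nonneg (by rw [le_div_iff₀ hx0]; linarith)
  have hD : 0 < 2 * N * (1 + w) ^ k := by positivity
  rw [lt_div_iff₀ hD, Real.exp_neg, inv_mul_lt_iff₀ (Real.exp_pos _), mul_one]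
  have h1 : 2 * N * (1 + w) ^ k ≤ 2 * ((1 / x) ^ v * (1 + x) ^ k) * (1 + w) ^ k := by gcongr
  have h2 : 2 * ((1 / x) ^ v * (1 + x) ^ k) * (1 + w) ^ k =
      Real.exp (Real.log 2 + v * Real.log (1 / x) + k * Real.log (1 + x) + k * Real.log (1 + w)) := by
    rw [Real.exp_add, Real.exp_add, Real.exp_add, Real.exp_log (by norm_num), mul_comm (v : ℝ),
      mul_comm (k : ℝ), mul_comm (k : ℝ), Real.exp_mul, Real.exp_mul, Real.exp_mul,
      Real.exp_log (by positivity), Real.exp_log (by positivity), Real.exp_log (by positivity),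
      Real.rpow_natCast, Real.rpow_natCast, Real.rpow_natCast]
    ring
  have h3 : Real.log (1 + x) ≤ x := by
    have := Real.log_le_sub_one_of_pos (show 0 < 1 + x by linarith)
    linarith
  have h4 : Real.log (1 + w) ≤ w := by
    have := Real.log_le_sub_one_of_pos (show 0 < 1 + w by linarith)
    linarith
  refine (h1.trans_eq h2).trans_lt (Real.exp_lt_exp.2 ?_)
  have h5 : v * Real.log (1 / x) ≤ (x * k + 1) * Real.log (1 / x) := mul_le_mul_of_nonneg_right hv hl0
  have h6 : k * Real.log (1 + x) ≤ k * x := mul_le_mul_of_nonneg_left h3 hk0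
  have h7 : k * Real.log (1 + w) ≤ k * (e₂ ^ 2 / 8) := mul_le_mul_of_nonneg_left (h4.trans hw) hk0
  have h8 : k * (x * Real.log (1 / x) + x) ≤ k * (e₂ ^ 2 / 8) := mul_le_mul_of_nonneg_left hH hk0
  have h9 : 0 ≤ e₂ ^ 2 * k := by positivity
  nlinarith

end Pool.Agent.Helper1.SM
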