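import Pool.Agent.Helper1.SM.Num
import Pool.Agent.Helper1.SM.Count

/-!
SM, block AS: kissing configurations among random candidates, with the sharp constant.
-/

set_option autoImplicit false

open MeasureTheory Set Filter Topology

namespace Pool.Agent.Helper1.SM

open Pool.Agent.Helper63.SM Pool.Agent.Helper63.RKS Pool.Agent.Helper49.EJ Pool.Agent.Helper47.KP

/-- a small proportion with small entropy -/
lemma exists_prop {y : ℝ} (hy : 0 < y) (hy1 : y ≤ 1) : ∃ x : ℝ, 0 < x ∧ x ≤ 1 ∧ x ≤ y ∧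
    x * Real.log (1 / x) + x ≤ y := by
  set z : ℝ := y / 3 with hz
  have hz0 : 0 < z := by positivity
  have hz1 : z ≤ 1 := by linarith
  refine ⟨z ^ 2, by positivity, pow_le_one₀ hz0.le hz1, ?_, ?_⟩
  · calc z ^ 2 = z * z := sq z
      _ ≤ 1 * z := mul_le_mul_of_nonneg_right hz1 hz0.le
      _ ≤ y := by linarith
  · have h1 : Real.log (1 / z ^ 2) ≤ 2 * (1 / z) := by
      have e1 : (1 : ℝ) / z ^ 2 = (1 / z) ^ 2 := (one_div_pow z 2).symm
      rw [e1, Real.log_pow]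
      have := Real.log_le_sub_one_of_pos (show 0 < 1 / z by positivity)
      push_cast
      linarith
    calc z ^ 2 * Real.log (1 / z ^ 2) + z ^ 2 ≤ z ^ 2 * (2 * (1 / z)) + z ^ 2 := by
          have := mul_le_mul_of_nonneg_left h1 (show 0 ≤ z ^ 2 by positivity)
          linarith
      _ = 2 * z + z * z := by field_simp
      _ ≤ 2 * z + 1 * z := by
          have := mul_le_mul_of_nonneg_right hz1 hz0.le
          linarith
      _ = y := by rw [hz]; ring

/-- `log (2 d) ≤ a d` for large `d` -/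
lemma log_small {a : ℝ} (ha : 0 < a) : ∀ᶠ d : ℕ in atTop, Real.log (2 * d) ≤ a * d := by
  have h1 : Tendsto (fun d : ℕ => Real.log (2 * d) / (2 * d)) atTop (𝓝 0) := by
    have h2 : Tendsto (fun x : ℝ => Real.log x / x) atTop (𝓝 0) := by
      have := Real.tendsto_pow_log_div_mul_add_atTop 1 0 1 one_ne_zero
      simpa using this
    refine h2.comp ?_
    exact (tendsto_natCast_atTop_atTop (R := ℝ)).const_mul_atTop (by norm_num)
  filter_upwards [h1.eventually_lt_const (show (0 : ℝ) < a / 2 by positivity),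
    eventually_ge_atTop 1] with d hd hd1
  have hd0 : (0 : ℝ) < d := by exact_mod_cast hd1
  rw [div_lt_iff₀ (by positivity)] at hd
  linarith

/-- the ratio of `Λ` and the size of the blocks -/
lemma ratio {k : ℕ} {d p B Λ c' l γ e₄ : ℝ} (hk : 0 < k) (hd : 0 < d) (hp : 0 < p) (hB : 0 < B)
    (hpkd : p * k ≤ d) (hpk : p * k ≤ c' * (Real.log 2 * d)) (hγ : l - c' / 2 = γ)
    (hΛ : Λ = Real.exp (p * k / 2 + e₄ * d)) (he4 : e₄ = γ * Real.log 2 / 4)
    (hlog : (l - γ / 8) * (Real.log 2 * d) ≤ Real.log (B * p))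
    (h2d : Real.log (2 * d) ≤ γ * Real.log 2 / 8 * d) :
    2 * k / B ≤ Real.exp (-((l - γ / 4) * (Real.log 2 * d))) ∧
      Λ * (2 * k / B) ≤ Real.exp (-(γ / 2 * (Real.log 2 * d))) := by
  have hk0 : (0 : ℝ) < k := by exact_mod_cast hk
  have h1 : 2 * k / B ≤ Real.exp (-((l - γ / 4) * (Real.log 2 * d))) := by
    have e1 : 2 * k / B = 2 * (p * k) / (B * p) := by field_simp
    rw [e1]
    calc 2 * (p * k) / (B * p) ≤ 2 * d / (B * p) := by gcongr
      _ = Real.exp (Real.log (2 * d) - Real.log (B * p)) := by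
          rw [Real.exp_sub, Real.exp_log (by positivity), Real.exp_log (by positivity)]
      _ ≤ _ := by
          apply Real.exp_le_exp.2
          have : -((l - γ / 4) * (Real.log 2 * d)) =
            γ * Real.log 2 / 8 * d - (l - γ / 8) * (Real.log 2 * d) := by ring
          linarith
  refine ⟨h1, ?_⟩
  calc Λ * (2 * k / B) ≤ Λ * Real.exp (-((l - γ / 4) * (Real.log 2 * d))) :=
        mul_le_mul_of_nonneg_left h1 (by rw [hΛ]; exact (Real.exp_pos _).le)
    _ = Real.exp (p * k / 2 + e₄ * d + -((l - γ / 4) * (Real.log 2 * d))) := by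
        rw [hΛ, ← Real.exp_add]
    _ ≤ _ := by
        apply Real.exp_le_exp.2
        rw [he4]
        have : -(γ / 2 * (Real.log 2 * d)) = c' * (Real.log 2 * d) / 2 +
            γ * Real.log 2 / 4 * d + -((l - γ / 4) * (Real.log 2 * d)) := by
          have : l = γ + c' / 2 := by linarith
          rw [this]; ring
        rw [this]
        linarith

section

variable {X : Type*} [MeasurableSpace X] {μ : Measure X} [IsProbabilityMeasure μ]
  {R : X → X → Prop}

/-- the statement for one `d`, with all numerical facts as hypotheses -/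
theorem core (hR : MeasurableSet {p : X × X | R p.1 p.2}) {k M n : ℕ}
    {d p ε K σ e₁ e₂ e₄ B c' l γ : ℝ} (hk : 1 ≤ k) (hd : 0 < d) (hp : 0 < p) (hp1 : p ≤ 1)
    (hpkd : p * k ≤ d) (hpk : p * k ≤ c' * (Real.log 2 * d))
    (hspec : Spec μ R p ε) (hε : 0 ≤ ε) (hK : 1 ≤ K) (hKp : p * k ≤ Real.log K)
    (hη : ε * K ≤ σ) (hσ : 0 < σ) (hσ1 : σ ≤ 1)
    (hP : ∀ j : ℕ, j ≤ k → 0 < pr μ R j ∧
      |Real.log (pr μ R j) + p / 2 * (j : ℝ) ^ 2| ≤ σ ^ 2 * (d * k))
    (h6 : 3 ≤ 2 * (σ ^ 2 * d)) (h4 : 4 ≤ σ * d) (hM : 1 ≤ M) (he1 : 0 < e₁) (he11 : e₁ ≤ 1)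
    (hMe : 2 ≤ e₁ * e₄ * M) (hke : 4 ≤ e₁ * e₄ * k) (hMσ : 80 * M * σ ≤ e₁ * e₄)
    (hγ0 : 0 < γ) (hlγ : γ / 4 ≤ l) (hγ : l - c' / 2 = γ) (he4 : e₄ = γ * Real.log 2 / 4)
    (hB : 0 < B) (hlog : (l - γ / 8) * (Real.log 2 * d) ≤ Real.log (B * p))
    (h2d : Real.log (2 * d) ≤ γ * Real.log 2 / 8 * d)
    (hH : e₁ * Real.log (1 / e₁) + e₁ ≤ e₂ ^ 2 / 8) (he2 : 0 < e₂)
    (hkl : Real.log 2 + Real.log (1 / e₁) < e₂ ^ 2 / 8 * k)
    (hw : Real.exp (-(γ / 2 * (Real.log 2 * d))) ≤ e₂ ^ 2 / 8) (hBn : B ≤ n) :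
    (Measure.pi fun _ : Fin n => μ).real
      {x | ¬ ∃ I : Finset (Fin n), (∀ i ∈ I, ∀ j ∈ I, i ≠ j → ¬ R (x i) (x j)) ∧
        (k : ℝ) - ⌈e₁ * k⌉₊ - 2 * (e₂ * k) ≤ I.card} ≤ Real.exp (-(e₂ ^ 2 * k / 2)) := by
  have hk0 : (0 : ℝ) < k := by exact_mod_cast hk
  have hl0 := log2_pos
  set Λ : ℝ := Real.exp (p * k / 2 + e₄ * d) with hΛ
  have hΛ0 : 0 < Λ := Real.exp_pos _
  obtain ⟨hr1, hr2⟩ := ratio (Λ := Λ) (by omega) hd hp hB hpkd hpk hγ hΛ he4 hlog h2d
  have hB2 : 2 * (k : ℝ) ≤ B := by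
    have h1 : Real.exp (-((l - γ / 4) * (Real.log 2 * d))) ≤ 1 := by
      rw [Real.exp_le_one_iff]
      have : 0 ≤ (l - γ / 4) * (Real.log 2 * d) := mul_nonneg (by linarith) (by positivity)
      linarith
    have h2 := hr1.trans h1
    rwa [div_le_one hB] at h2
  set r : ℕ := ⌊B / k⌋₊ with hr
  have hBk : 2 ≤ B / k := by rw [le_div_iff₀ hk0]; exact hB2
  have hrle : (r : ℝ) ≤ B / k := Nat.floor_le (by positivity)
  have hrlt : B / k < r + 1 := Nat.lt_floor_add_one _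
  have hr0 : (1 : ℝ) ≤ r := by linarith
  have hr1' : 1 ≤ r := by exact_mod_cast hr0
  have hrhalf : B / (2 * k) ≤ r := by
    have : B / (2 * k) = B / k / 2 := by field_simp
    rw [this]; linarith
  have hkr : k * r ≤ n := by
    have h1 : (k : ℝ) * r ≤ B := by
      calc (k : ℝ) * r ≤ k * (B / k) := mul_le_mul_of_nonneg_left hrle hk0.le
        _ = B := by field_simp
    have h2 : ((k * r : ℕ) : ℝ) ≤ n := by push_cast; linarith
    exact_mod_cast h2
  have hwle : Λ / r ≤ e₂ ^ 2 / 8 := by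
    refine le_trans ?_ (hr2.trans hw)
    have hr00 : (0 : ℝ) < r := by linarith
    rw [div_le_iff₀ hr00]
    calc Λ = Λ * (2 * k / B) * (B / (2 * k)) := by field_simp
      _ ≤ _ := mul_le_mul_of_nonneg_left hrhalf (by positivity)
  set v : ℕ := ⌈e₁ * k⌉₊ with hv
  have hv1 : 1 ≤ v := Nat.one_le_ceil_iff.2 (by positivity)
  have hvge : e₁ * k ≤ v := Nat.le_ceil _
  have hvle : (v : ℝ) ≤ e₁ * k + 1 := (Nat.ceil_lt_add_one (by positivity)).le
  have hprk := (hP k le_rfl).1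
  have hPabs := fun j hj => abs_le.1 (hP j hj).2
  have hstar : ∀ S : Finset (Fin k), v ≤ S.card → (Measure.pi fun _ : Fin k => μ).real
      {x | x ∈ IndS R Finset.univ ∧ pr μ R k * Λ ^ S.card ≤ ex μ R S x} ≤
        pr μ R k / 4 ^ k := by
    intro S hS
    have hSk : S.card ≤ k := by simpa using Finset.card_le_univ S
    have hSv : e₁ * k ≤ (S.card : ℝ) := hvge.trans (by exact_mod_cast hS)
    refine star (K := K) (ε := ε) (δ := σ ^ 2 * (d * k)) hR hk hp (by positivity) hε hspec hK hKp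
      (hη.trans hσ1) (fun j hj => ⟨(hP j hj).1, ?_⟩) ?_ S hM (by positivity) ?_
    · have := (hPabs j hj).2
      linarith
    · have := (hPabs k le_rfl).1
      linarith
    · rw [Real.log_mul hprk.ne' (by positivity), Real.log_pow, hΛ, Real.log_exp]
      refine star_num (e₁ := e₁) (σ := σ) (by omega) hd hp hp1 hpkd hσ hσ1 rfl h6 h4
        (mul_nonneg hε (by linarith)) hη hM he1 (by rw [he4]; positivity) hMe hke hMσ hSv hSk ?_
      have := (hPabs k le_rfl).1
      linarith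
  have hq := trans hR hr1' hΛ0 hprk hv1 hstar hk
  set N : ℝ := (((Finset.univ : Finset (Finset (Fin k))).filter fun V => V.card < v).card : ℝ)
    with hN
  have hN0 : 0 < N := by
    rw [hN]
    have : 0 < ((Finset.univ : Finset (Finset (Fin k))).filter fun V => V.card < v).card := by
      apply Finset.card_pos.2
      exact ⟨∅, Finset.mem_filter.2 ⟨Finset.mem_univ _, by rw [Finset.card_empty]; omega⟩⟩
    exact_mod_cast this
  have hql := q_lower (e₂ := e₂) (w := Λ / r) he1 he11 hN0 (count_lt he1 he11) hvle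
    (by positivity) hwle hH hkl
  have et : (e₂ * k) ^ 2 / (2 * k) = e₂ ^ 2 * k / 2 := by field_simp
  have hc := conc (μ := μ) hR hr1' hk (v := v) (t := e₂ * k) (by positivity)
    (by rw [et]; exact hql.trans_le hq) hkr
  rw [et] at hc
  exact hc

end

/-- **Kissing configurations among random candidates, with the sharp constant.** -/
theorem lower_half (hcap : CapAsymp) {c s₁ : ℝ} (hc0 : 0 < c) (hc : c < gst)
    (hcs : c < 2 * (s₁ - Real.logb 2 (2 / Real.sqrt 3))) {e : ℝ} (he : 0 < e) :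
    ∃ δ : ℝ, 0 < δ ∧ ∀ᶠ d : ℕ in atTop, ∀ n : ℕ, (2 : ℝ) ^ (s₁ * d) ≤ n →
      (Measure.pi fun _ : Fin n => sig d).real
        {x | ¬ ∃ I : Finset (Fin n), Pool.Agent.Helper84.RK.Kis x I ∧
          (AA * c - e) * ord d ≤ I.card} ≤ Real.exp (-(δ * ord d)) := by
  set s0 := Real.logb 2 (2 / Real.sqrt 3) with hs0
  have hl0 := log2_pos
  have hA := AA_pos
  have hA1 := AA_le_one
  have hg1 := gst_le_one
  have hAc : 0 < AA * c := mul_pos hA hc0
  have hAc1 : AA * c ≤ 1 := by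
    calc AA * c ≤ 1 * 1 := mul_le_mul hA1 (by linarith) hc0.le zero_le_one
      _ = 1 := one_mul 1
  set l : ℝ := s₁ - s0 with hl
  obtain ⟨c', hcc', hc'⟩ : ∃ c', c < c' ∧ c' < min gst (2 * l) := exists_between (lt_min hc hcs)
  have hc'g : c' < gst := hc'.trans_le (min_le_left _ _)
  have hc'l : c' < 2 * l := hc'.trans_le (min_le_right _ _)
  set γ : ℝ := l - c' / 2 with hγ
  have hγ0 : 0 < γ := by rw [hγ]; linarith
  have hlγ : γ / 4 ≤ l := by rw [hγ]; linarith
  set e₂ : ℝ := min 1 (e / 8) with he2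
  have he20 : 0 < e₂ := lt_min one_pos (by positivity)
  have he21 : e₂ ≤ 1 := min_le_left _ _
  have he22 : e₂ ≤ e / 8 := min_le_right _ _
  have he2sq : e₂ ^ 2 / 8 ≤ e₂ := by
    have : e₂ ^ 2 ≤ 1 * e₂ := by rw [sq]; exact mul_le_mul_of_nonneg_right he21 he20.le
    linarith
  obtain ⟨e₁, he10, he11, he12, hH⟩ := exists_prop (y := e₂ ^ 2 / 8) (by positivity) (by linarith)
  set e₄ : ℝ := γ * Real.log 2 / 4 with he4
  have he40 : 0 < e₄ := by positivity
  set M : ℕ := ⌈2 / (e₁ * e₄)⌉₊ with hM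
  have hM1 : 1 ≤ M := Nat.one_le_ceil_iff.2 (by positivity)
  have hM0 : (0 : ℝ) < M := by exact_mod_cast hM1
  have hMe : 2 ≤ e₁ * e₄ * M := by
    have : 2 / (e₁ * e₄) ≤ M := Nat.le_ceil _
    rw [div_le_iff₀ (by positivity)] at this
    linarith
  set σ : ℝ := min 1 (e₁ * e₄ / (80 * M)) with hσ
  have hσ0 : 0 < σ := lt_min one_pos (by positivity)
  have hσ1 : σ ≤ 1 := min_le_left _ _
  have hMσ : 80 * M * σ ≤ e₁ * e₄ := by
    have : σ ≤ e₁ * e₄ / (80 * M) := min_le_right _ _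
    rw [le_div_iff₀ (by positivity)] at this
    linarith
  obtain ⟨g₁, hg₁, hg₁'⟩ := exists_between hc'g
  set εn : ℝ := min (σ ^ 2) ((c' - c) * Real.log 2) with hεn
  have hεn0 : 0 < εn := lt_min (by positivity) (mul_pos (by linarith) hl0)
  have hεn1 : εn ≤ σ ^ 2 := min_le_left _ _
  have hεn2 : εn ≤ (c' - c) * Real.log 2 := min_le_right _ _
  refine ⟨e₂ ^ 2 * (AA * c) / 4, by positivity, ?_⟩
  have hd_ev : ∀ x : ℝ, ∀ᶠ d : ℕ in atTop, x ≤ (d : ℝ) := fun x =>
    (tendsto_natCast_atTop_atTop (R := ℝ)).eventually_ge_atTop x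
  have ho_ev : ∀ x : ℝ, ∀ᶠ d : ℕ in atTop, x ≤ ord d := fun x => ord_large.eventually_ge_atTop x
  have hη_ev : ∀ᶠ d : ℕ in atTop, (2 : ℝ) ^ (-(g₁ * d)) * (2 : ℝ) ^ (c' * d) ≤ σ := by
    have h1 : Tendsto (fun d : ℕ => ((2 : ℝ) ^ (-(g₁ - c'))) ^ d) atTop (𝓝 0) := by
      apply tendsto_pow_atTop_nhds_zero_of_lt_one (by positivity)
      apply Real.rpow_lt_one_of_one_lt_of_neg (by norm_num)
      linarith
    filter_upwards [h1.eventually_lt_const hσ0] with d hd
    rw [← Real.rpow_add (by norm_num)]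
    rw [← Real.rpow_natCast, ← Real.rpow_mul (by norm_num)] at hd
    have e1 : -(g₁ * (d : ℝ)) + c' * d = -(g₁ - c') * d := by ring
    rw [e1]
    exact hd.le
  have hw_ev : ∀ᶠ d : ℕ in atTop, Real.exp (-(γ / 2 * (Real.log 2 * d))) ≤ e₂ ^ 2 / 8 := by
    have h1 : Tendsto (fun d : ℕ => (Real.exp (-(γ / 2 * Real.log 2))) ^ d) atTop (𝓝 0) := by
      apply tendsto_pow_atTop_nhds_zero_of_lt_one (Real.exp_pos _).le
      rw [Real.exp_lt_one_iff]
      have : 0 < γ / 2 * Real.log 2 := by positivity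
      linarith
    filter_upwards [h1.eventually_lt_const (show (0 : ℝ) < e₂ ^ 2 / 8 by positivity)] with d hd
    rw [← Real.exp_nat_mul] at hd
    have e1 : -(γ / 2 * (Real.log 2 * (d : ℝ))) = d * -(γ / 2 * Real.log 2) := by ring
    rw [e1]
    exact hd.le
  filter_upwards [nums hcap hc0 hc hεn0, spec_eventually hg₁', log_close (ε := γ / 8) (by positivity),
    hη_ev, hw_ev, log_small (show 0 < γ * Real.log 2 / 8 by positivity),
    hd_ev (3 / (2 * σ ^ 2)), hd_ev (4 / σ), ho_ev (2 / (AA * c) * (4 / (e₁ * e₄))),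
    ho_ev (2 / (AA * c) * ((Real.log 2 + Real.log (1 / e₁) + 1) / (e₂ ^ 2 / 8))),
    ho_ev (4 / e)] with d hn hsp hlc hη hw h2d hd6 hd4 ho1 ho2 ho3 n hBn
  obtain ⟨hd4', hp, hk1, hkge, hkle, hklt, hpkc, hP⟩ := hn
  have : NeZero d := ⟨by omega⟩
  have hspec := hsp.2 this
  have hp1 : pc d ≤ 1 := pc_le_one (by omega)
  have hd0 : (0 : ℝ) < d := by exact_mod_cast (by omega : 0 < d)
  have ho := ord_pos (by omega : 1 ≤ d)
  set k : ℕ := ⌊AA * c * ord d⌋₊ with hk
  set p := pc d with hpd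
  have hk0 : (0 : ℝ) < k := by exact_mod_cast hk1
  have hpk : p * k ≤ c' * (Real.log 2 * d) := by
    have h1 := (abs_le.1 hpkc).2
    have h2 : εn * d ≤ (c' - c) * Real.log 2 * d := mul_le_mul_of_nonneg_right hεn2 hd0.le
    linarith
  have hpkd : p * k ≤ d := by
    refine hpk.trans ?_
    have h1 : c' * (Real.log 2 * d) ≤ 1 * (1 * d) := by
      apply mul_le_mul (by linarith) _ (by positivity) (by norm_num)
      exact mul_le_mul_of_nonneg_right log2_le hd0.le
    linarith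
  have hK : (1 : ℝ) ≤ 2 ^ (c' * d) := Real.one_le_rpow (by norm_num) (mul_nonneg (by linarith) hd0.le)
  have hKp : p * k ≤ Real.log (2 ^ (c' * d)) := by
    rw [Real.log_rpow (by norm_num)]
    linarith
  have hdk : (0 : ℝ) ≤ d * k := by positivity
  have hkbig : ∀ y : ℝ, 2 / (AA * c) * y ≤ ord d → y ≤ k := by
    intro y hy
    have h1 : AA * c / 2 * (2 / (AA * c) * y) ≤ AA * c / 2 * ord d :=
      mul_le_mul_of_nonneg_left hy (by positivity)
    have h2 : AA * c / 2 * (2 / (AA * c) * y) = y := by field_simp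
    linarith
  have hcore := core (μ := sig d) (R := Rc (d := d)) (k := k) (M := M) (n := n) (d := d) (p := p)
    (ε := (2 : ℝ) ^ (-(g₁ * d))) (K := (2 : ℝ) ^ (c' * d)) (σ := σ) (e₁ := e₁) (e₂ := e₂) (e₄ := e₄)
    (B := (2 : ℝ) ^ (s₁ * d)) (c' := c') (l := l) (γ := γ) measurable_Rc hk1 hd0 hp hp1 hpkd hpk
    hspec (by positivity) hK hKp hη hσ0 hσ1
    (fun j hj => ⟨(hP j hj).1, (hP j hj).2.trans (mul_le_mul_of_nonneg_right hεn1 hdk)⟩)
    (by
      rw [div_le_iff₀ (by positivity)] at hd6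
      linarith)
    (by
      rw [div_le_iff₀ hσ0] at hd4
      linarith)
    hM1 he10 he11 hMe
    (by
      have h1 := hkbig _ ho1
      rw [div_le_iff₀ (by positivity)] at h1
      linarith)
    hMσ hγ0 hlγ rfl rfl (by positivity) (by
      have := (hlc s₁).1
      exact this) h2d hH he20
    (by
      have h1 := hkbig _ ho2
      rw [div_le_iff₀ (by positivity)] at h1
      linarith)
    hw hBn
  refine (measureReal_mono ?_ (measure_ne_top _ _)).trans (hcore.trans (Real.exp_le_exp.2 ?_))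
  · intro x hx hI
    apply hx
    obtain ⟨I, hI1, hI2⟩ := hI
    refine ⟨I, fun i hi j hj hij => not_lt.1 (hI1 i hi j hj hij), le_trans ?_ hI2⟩
    have h1 : (⌈e₁ * (k : ℝ)⌉₊ : ℝ) ≤ e₁ * k + 1 := (Nat.ceil_lt_add_one (by positivity)).le
    have h2 : e₁ * (k : ℝ) ≤ e / 8 * ord d := by
      have h3 : e₁ ≤ e / 8 := by linarith
      have h4 : (k : ℝ) ≤ 1 * ord d := hkle.trans (mul_le_mul_of_nonneg_right hAc1 ho.le)
      calc e₁ * (k : ℝ) ≤ e / 8 * (1 * ord d) := mul_le_mul h3 h4 hk0.le (by positivity)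
        _ = _ := by ring
    have h5 : e₂ * (k : ℝ) ≤ e / 8 * ord d := by
      have h4 : (k : ℝ) ≤ 1 * ord d := hkle.trans (mul_le_mul_of_nonneg_right hAc1 ho.le)
      calc e₂ * (k : ℝ) ≤ e / 8 * (1 * ord d) := mul_le_mul he22 h4 hk0.le (by positivity)
        _ = _ := by ring
    have h6 : 2 ≤ e / 2 * ord d := by
      rw [div_le_iff₀ he] at ho3
      linarith
    have h7 : 0 < e * ord d := by positivity
    linarith
  · have h1 : e₂ ^ 2 * (AA * c / 2 * ord d) ≤ e₂ ^ 2 * k := mul_le_mul_of_nonneg_left hkge (by positivity)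
    linarith

end Pool.Agent.Helper1.SM
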