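import Pool.Agent.Helper63.SM.Nums
import Pool.Agent.Helper63.SM.Star
import Pool.Agent.Helper63.SM.Trans
import Pool.Agent.Helper53.SM53.Spec

/-!
SM, block AS: the real inequalities for the extension probabilities.
-/

set_option autoImplicit false

namespace Pool.Agent.Helper1.SM

open Pool.Agent.Helper63.SM

lemma log2_le : Real.log 2 ≤ 1 := by have := Real.log_two_lt_d9; linarith

lemma log2_pos : 0 < Real.log 2 := Real.log_pos (by norm_num)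

lemma p_eN {k : ℕ} {d p δ σ : ℝ} (hd : 0 < d) (hp : 0 < p) (hpk : p * k ≤ d) (hσ : 0 < σ)
    (hδ : δ = σ ^ 2 * (d * k)) (h6 : 3 ≤ 2 * (σ ^ 2 * d)) :
    p * eN p δ k ≤ 3 * (σ * d) := by
  have hk0 : (0 : ℝ) ≤ k := Nat.cast_nonneg k
  have hl := log2_le
  have hl0 := log2_pos
  have hδ0 : 0 ≤ δ := by rw [hδ]; positivity
  unfold eN
  have hy : 0 ≤ 2 * (2 * δ + 3 * k * Real.log 2) / p := by positivity
  refine (sq_le_sq₀ (by positivity) (by positivity)).1 ?_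
  rw [mul_pow, Real.sq_sqrt hy]
  have e1 : p ^ 2 * (2 * (2 * δ + 3 * k * Real.log 2) / p) =
      4 * σ ^ 2 * d * (p * k) + 6 * (p * k) * Real.log 2 := by
    rw [hδ]; field_simp; ring
  rw [e1]
  have h1 : 4 * σ ^ 2 * d * (p * k) ≤ 4 * σ ^ 2 * d * d := mul_le_mul_of_nonneg_left hpk (by positivity)
  have h2 : 6 * (p * k) * Real.log 2 ≤ 6 * d * 1 := by
    apply mul_le_mul _ hl hl0.le (by positivity)
    linarith
  have h3 : 3 * d ≤ 2 * (σ ^ 2 * d) * d := mul_le_mul_of_nonneg_right h6 hd.le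
  have h4 : 0 ≤ σ ^ 2 * d * d := by positivity
  calc 4 * σ ^ 2 * d * (p * k) + 6 * (p * k) * Real.log 2
      ≤ 4 * (σ ^ 2 * d * d) + 2 * (3 * d) := by linarith
    _ ≤ 8 * (σ ^ 2 * d * d) := by linarith
    _ ≤ (3 * (σ * d)) ^ 2 := by
        have : (3 * (σ * d)) ^ 2 = 9 * (σ ^ 2 * d * d) := by ring
        rw [this]; linarith

lemma eE_le {k : ℕ} {d p δ η σ : ℝ} (hd : 0 < d) (hp : 0 < p) (hp1 : p ≤ 1) (hpk : p * k ≤ d)
    (hσ : 0 < σ) (hσ1 : σ ≤ 1) (hδ : δ = σ ^ 2 * (d * k)) (h6 : 3 ≤ 2 * (σ ^ 2 * d))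
    (h4 : 4 ≤ σ * d) (hη0 : 0 ≤ η) (hη : η ≤ σ) :
    eE p δ η k ≤ 15 * σ * (d * k) := by
  have hk0 : (0 : ℝ) ≤ k := Nat.cast_nonneg k
  have hl := log2_le
  have hl0 := log2_pos
  have h1 := p_eN hd hp hpk hσ hδ h6
  have hdk : 0 ≤ d * k := by positivity
  have hσdk : 0 ≤ σ * (d * k) := by positivity
  unfold eE
  have a1 : δ ≤ σ * (d * k) := by
    rw [hδ]
    apply mul_le_mul_of_nonneg_right _ hdk
    nlinarith
  have a2 : 2 * (k : ℝ) * Real.log 2 ≤ 2 * k := by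
    have := mul_le_mul_of_nonneg_left hl (show (0 : ℝ) ≤ 2 * k by positivity)
    linarith
  have a3 : p / 2 * η * (k : ℝ) ^ 2 ≤ 1 / 2 * (σ * (d * k)) := by
    calc p / 2 * η * (k : ℝ) ^ 2 = 1 / 2 * (η * ((p * k) * k)) := by ring
      _ ≤ 1 / 2 * (σ * (d * k)) := by gcongr
  have a4 : p / 2 * (k : ℝ) ≤ 1 / 2 * k := by
    apply mul_le_mul_of_nonneg_right _ hk0
    linarith
  have a5 : (4 * p * eN p δ k + 1) * k ≤ 12 * (σ * (d * k)) + k := by
    have : 4 * p * eN p δ k * k ≤ 12 * (σ * d) * k := by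
      apply mul_le_mul_of_nonneg_right _ hk0
      linarith
    calc (4 * p * eN p δ k + 1) * k = 4 * p * eN p δ k * k + k := by ring
      _ ≤ 12 * (σ * d) * k + k := by linarith
      _ = _ := by ring
  have a6 : 4 * (k : ℝ) ≤ σ * (d * k) := by
    calc 4 * (k : ℝ) ≤ σ * d * k := mul_le_mul_of_nonneg_right h4 hk0
      _ = _ := by ring
  calc _ ≤ σ * (d * k) + 2 * k + 1 / 2 * (σ * (d * k)) + 1 / 2 * k +
        (12 * (σ * (d * k)) + k) := by linarith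
    _ ≤ 15 * σ * (d * k) := by
      have : 15 * σ * (d * k) = 15 * (σ * (d * k)) := by ring
      rw [this]; linarith

/-- the hypothesis of `star` for `τ = P(k) Λ^l`, `log Λ = p k / 2 + e₄ d` -/
lemma star_num {k l M : ℕ} {d p δ η σ e₁ e₄ lk : ℝ} (hk : 0 < k) (hd : 0 < d) (hp : 0 < p)
    (hp1 : p ≤ 1) (hpk : p * k ≤ d) (hσ : 0 < σ) (hσ1 : σ ≤ 1) (hδ : δ = σ ^ 2 * (d * k))
    (h6 : 3 ≤ 2 * (σ ^ 2 * d)) (h4 : 4 ≤ σ * d) (hη0 : 0 ≤ η) (hη : η ≤ σ) (hM : 1 ≤ M)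
    (he1 : 0 < e₁) (he4 : 0 < e₄) (hMe : 2 ≤ e₁ * e₄ * M) (hke : 4 ≤ e₁ * e₄ * k)
    (hMσ : 80 * M * σ ≤ e₁ * e₄) (hl : e₁ * k ≤ l) (hlk : l ≤ k)
    (hPk : -lk ≤ p / 2 * (k : ℝ) ^ 2 + δ) :
    -(p / 2 * (k * ((k : ℝ) - l))) + p / 2 * (((k : ℝ) - l) * (k / M + 1)) +
      M * (δ + eE p δ η k) < lk + l * (p * k / 2 + e₄ * d) := by
  have hk0 : (0 : ℝ) < k := by exact_mod_cast hk
  have hM1 : (1 : ℝ) ≤ M := by exact_mod_cast hM
  have hM0 : (0 : ℝ) < M := by linarith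
  have hlk' : (l : ℝ) ≤ k := by exact_mod_cast hlk
  have hl0 : (0 : ℝ) ≤ l := Nat.cast_nonneg l
  have hE := eE_le hd hp hp1 hpk hσ hσ1 hδ h6 h4 hη0 hη
  have hdk : 0 < d * k := by positivity
  have hσdk : 0 ≤ σ * (d * k) := by positivity
  have hδ1 : δ ≤ σ * (d * k) := by
    rw [hδ]
    apply mul_le_mul_of_nonneg_right _ hdk.le
    nlinarith
  have hee : 0 < e₁ * e₄ := by positivity
  -- A
  have hA1 : p / 2 * (((k : ℝ) - l) * (k / M + 1)) ≤ d / 2 * (k / M + 1) := by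
    have : p / 2 * (((k : ℝ) - l) * (k / M + 1)) = (p * (k - l)) / 2 * (k / M + 1) := by ring
    rw [this]
    apply mul_le_mul_of_nonneg_right _ (by positivity)
    have : p * ((k : ℝ) - l) ≤ p * k := mul_le_mul_of_nonneg_left (by linarith) hp.le
    linarith
  have hA2 : d / 2 * (k / M + 1) ≤ e₁ * e₄ / 4 * (d * k) + e₁ * e₄ / 8 * (d * k) := by
    have h1 : (k : ℝ) / M ≤ e₁ * e₄ / 2 * k := by
      rw [div_le_iff₀ hM0]
      calc (k : ℝ) = 2 * (k / 2) := by ring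
        _ ≤ e₁ * e₄ * M * (k / 2) := mul_le_mul_of_nonneg_right hMe (by positivity)
        _ = _ := by ring
    have h2 : (1 : ℝ) ≤ e₁ * e₄ / 4 * k := by linarith
    calc d / 2 * (k / M + 1) ≤ d / 2 * (e₁ * e₄ / 2 * k + e₁ * e₄ / 4 * k) := by
          apply mul_le_mul_of_nonneg_left _ (by positivity)
          linarith
      _ = _ := by ring
  -- B
  have hB : M * (δ + eE p δ η k) + δ ≤ e₁ * e₄ * (17 / 80) * (d * k) := by
    have h1 : M * (δ + eE p δ η k) ≤ M * (16 * (σ * (d * k))) := by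
      apply mul_le_mul_of_nonneg_left _ hM0.le
      linarith
    have h2 : δ ≤ M * (σ * (d * k)) := by
      calc δ ≤ 1 * (σ * (d * k)) := by linarith
        _ ≤ _ := mul_le_mul_of_nonneg_right hM1 hσdk
    calc M * (δ + eE p δ η k) + δ ≤ 80 * M * σ * (17 / 80) * (d * k) := by linarith
      _ ≤ _ := by gcongr
  have hC : e₁ * e₄ * (d * k) ≤ l * (e₄ * d) := by
    calc e₁ * e₄ * (d * k) = (e₁ * k) * (e₄ * d) := by ring
      _ ≤ _ := mul_le_mul_of_nonneg_right hl (by positivity)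
  have hD : 0 < e₁ * e₄ * (d * k) := by positivity
  have e1 : -(p / 2 * (k * ((k : ℝ) - l))) = -(p / 2 * (k : ℝ) ^ 2) + l * (p * k / 2) := by ring
  have e2 : l * (p * k / 2 + e₄ * d) = l * (p * k / 2) + l * (e₄ * d) := by ring
  rw [e1, e2]
  linarith

end Pool.Agent.Helper1.SM
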